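/-!
# MP_81e84b_lc, ordered variable words: the two step theorem in ACA_0 (paper proof)

ORDERED means: all occurrences of X_i in W come before all occurrences of X_(i+1).
A finite alphabet, V = {x_0, .., x_(n-1)} further letters (the variables of the words v), T = words
over A, S = words over A + V.

THEOREM (provable in ACA_0, all A, n, l). For every colouring f of S with l colours there are an
ordered omega-variable word W over A, a colour c and a function G such that
(0) f(W[u]) = c for all u in T;
(1) f(W[u z e z']) = G(u, e) for all e in V, all z, z' in T and all u in S which are empty or end
    with a letter of V.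
So for a word v with k occurrences of variables the colour of W[v] depends only on the last
variable of v and on the prefix of v up to (including) the last but one occurrence of a variable;
in particular it is constant for the words with exactly one occurrence of x_0. For n = 0 this is the
ordered theorem OVW^0 (helper41). If the colour of W[v] did not depend on v at all, Hindman's
theorem would follow. A = one letter, k = 1 gives Ramsey's theorem for pairs.

Step 0 (helper41): W^0 with (0). Everything else happens inside W^0 (substitution into W^0 keeps
(0), and W^0[W^1[W^2]] is ordered). In each step we replace f by v |-> f(W[v]).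

## Step 1 (T-PS sets; the same fusion as in Lemma 5 of Helper6/CS/Paper.lean).
There is an ordered W over A with f(W[u z]) = f(W[u]) for all z in T and all u in S which end with a
letter of V. (After this step f(v y) = f(v) for all y in T and all v in S which contain a variable.)
Let w be a finite ordered j-variable word over A (blocks 0 .. j-1 complete),
D(w) = {y in T : f(w[u z] y) = f(W[u]) for all u ending with a variable, z in T nonempty,
|u| + |z| = j}, where W[u] = w cut at the first X_|u| (|u| < j). Let D(w) be PS. Colour y in D(w) by
kappa(y) = (f(w[u] y)) for |u| = j, u ending with a variable; D' = one colour, PS. By the ordered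
Lemma 4 (helper41, Ord4.lean) there are s in D' and a word t over A + {X} which begins with X such
that {y : s t(b) y in D' for all b in A} is PS. With w+ = w s t(X_j) this set is contained in D(w+):
f(w+[u z_0 b] y) = f(w[u z_0] s t(b) y), y' = s t(b) y in D'; z_0 nonempty: y' in D(w); z_0 empty:
kappa(y') = kappa(s). Limit: W = s_0 t_0(X_0) s_1 t_1(X_1) .., W[v] = w_j[v] s_j, s_j in D(w_j).

## Step 2 (J-large sets of variable words).
V1 = words over A + {X} which contain X; w(e) = w with X replaced by e.
A finite colouring chi of T; w in V1 is chi-diagonal up to L if chi(g w(b)) = chi(g w(c)) for all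
b, c in A and all g in T, |g| <= L.
DEFINITION. E, a subset of V1, is J-large if there is p such that for all L and r there is B such that
for every chi with r colours there is w in V1, |w| <= B, chi-diagonal up to L, such that for all g in T
with |g| <= L there is t in T, |t| <= p, with t g w in E. (Arithmetical: only the values of chi on the
words of length <= L + B matter.)
(a) E1 + E2 J-large => E1 or E2 J-large; finite unions; supersets. [E2 not: for p there are L', r' and
for every B' a bad chi'. E1 is J-large with p + L': given L, r take B for L + L' and r r'; given chi
combine it with chi' (for B' = B + L); w; given g, g w has length <= B' and is chi'-diagonal up to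
L', so there is g', |g'| <= L', with t g' g w not in E2 for all |t| <= p; but t g' g w is in E1 + E2 for
some |t| <= p.]
(b) V1 is J-large (Lemma 3 for the colouring z |-> (chi(g z)), |g| <= L: sigma X tau).
(c) Let E_i, i < N, be not J-large. For all p there are q, r and for every B there is chi with r
colours such that for every w in V1, |w| <= B, chi-diagonal up to q, there is g in T, |g| <= q, with
t g w not in E_i for all i < N, |t| <= p. [Induction on N as Lemma 2.]
(d) Let E be J-large. Then there is v in E such that E/v = {w in V1 : v(b) w in E for all b in A} is
J-large.
Proof of (d). Let p be for E and suppose that E/v is not J-large for all v in E.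
(d0) for all L, r there is B such that for all chi with r colours there is w in V1, |w| <= B,
chi-diagonal up to L, with: for |g| <= L there is |t| <= p with t g w in E; and U w not in E/v for all
v in E, |v| <= L, U in T, |U| <= L. [(c) for the sets E/v, |v| <= L, p := L, gives q, r'; take w* for
L + q, r r' and w = g w*.]
(d1) Cl(m): for all L there are w_0, .., w_m in V1 such that with
h[beta] = w_0(beta_0) .. w_(j-1)(beta_(j-1)) w_j, |beta| = j <= m:
(I) for j <= m and |g| <= L there is |t| <= p with t g h[beta] in E for ALL beta in A^j;
(Q) U h[beta] is not in E/v for v in E, |v|, |U| <= L;
(P) not (alpha h[sigma] in E and alpha h[sigma b tau] in E for all b in A) for alpha, sigma, tau in T,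
    |alpha| <= L, |sigma| + 1 + |tau| <= m.
Cl(0): (d0). Cl(m+1): let r' be the number of functions from {0..m} to the words of length <= p, B from
(d0) for L, r', h' from Cl(m) for L + B, chi(y) = (t(y, j)), j <= m, where t(y, j) is the t of (I) for h'
and g = y, |y| <= L + B; w_0 from (d0), h = w_0(X_0) h'. (I) for j + 1: t(g w_0(b), j) does not depend on
b. (Q), |beta| > 0: U w_0(b) instead of U. (P), sigma empty: v = alpha w_0 in E, |v| <= L + B, and
h'[tau] in E/v contradicts (Q) of h'; sigma = b sigma': alpha w_0(b) instead of alpha.
End: m = number of words of length <= p, L = p, g empty: levels j < j' <= m with the same t; (P) with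
alpha = t, sigma = 0^j, tau = 0^(j'-j-1) is a contradiction (b ranges over A; A empty: level 0).
Now let f be as after Step 1. For a finite ordered j-variable word w let
E(w) = {y in V1 : f(w[u z] y(e)) = f(w[u e z']) for all u in S empty or ending with a variable,
e in V, z in T nonempty, |u| + |z| = j, z' in T, |u| + 1 + |z'| = j}
(the right side does not depend on z' by Step 1). Let E(w) be J-large (E(empty) = V1 is). Colour y by
kappa(y) = (f(w[u] y(e))), |u| = j, e in V; E' = one colour, J-large; (d): y_0 in E' with E'/y_0
J-large. With w+ = w y_0(X_j): E'/y_0 is contained in E(w+): let y in E'/y_0, |u z_0 b| = j + 1: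
f(w+[u z_0 b] y(e)) = f(w[u z_0] y'(e)), y' = y_0(b) y in E'. z_0 nonempty: = f(w[u e z'_0]) for |z'_0| =
j - |u| - 1, and f(w+[u e z'_0 c]) = f(w[u e z'_0] y_0(c)) = f(w[u e z'_0]) by Step 1. z_0 empty:
kappa(y') = kappa(y_0) gives f(w[u] y_0(e)) = f(w+[u e]).
Limit: W = y_0(X_0) y_1(X_1) .., y_j in E(w_j). For v = u z e z', i = |u z|: W[v] = w_i[u z] y_i(e) (word in
T), so f(W[v]) = f(w_i[u z] y_i(e)), which is f(w_i[u e z''])  = f(w_|u|[u] y_|u|(e)) if z is nonempty (Step 1
again), and the same if z is empty. QED
-/
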